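import Pool.Agent.N408.IB.Stm

/-!
# Project IB, part L2: Lipschitz and semiconcavity bounds for the operator `Leg`
-/

set_option autoImplicit false

open Real Set MeasureTheory
open IB408

namespace N427.IB.L2

theorem cos_half {d : ℝ} (hd : d ∈ Icc (-1 : ℝ) 1) : 1 / 2 ≤ cos d := by
  have h := Real.one_sub_sq_div_two_le_cos (x := d)
  have h2 : d ^ 2 ≤ 1 := by
    have := hd.1
    have := hd.2
    nlinarith
  linarith

theorem cos_up {d : ℝ} (hd : d ∈ Icc (-1 : ℝ) 1) : 43 / 96 * d ^ 2 ≤ 1 - cos d := by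
  have h1 : |d| ≤ 1 := abs_le.2 hd
  have h := Real.cos_bound h1
  have h2 := (abs_le.1 h).2
  have h3 : |d| ^ 4 ≤ d ^ 2 := by
    have h4 : |d| ^ 2 ≤ 1 := pow_le_one₀ (abs_nonneg _) h1
    have h5 : |d| ^ 4 = |d| ^ 2 * |d| ^ 2 := by ring
    rw [h5, ← sq_abs d]
    nlinarith [sq_nonneg |d|]
  linarith

theorem lip_one (h : ℝ → ℝ) (hA : ∀ θ, ∃ d ∈ Icc (-1 : ℝ) 1, Leg h θ = h (θ + d) / cos d)
    (hB : ∀ θ, ∀ d ∈ Icc (-1 : ℝ) 1, Leg h θ ≤ h (θ + d) / cos d) (K : ℝ)
    (hK : ∀ x y, |h x - h y| ≤ K * |x - y|) (x y : ℝ) :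
    Leg h x - Leg h y ≤ 2 * K * |x - y| := by
  obtain ⟨d, hd, hy⟩ := hA y
  have hc := cos_half hd
  have hc0 : 0 < cos d := by linarith
  have h0 : 0 ≤ K * |x - y| := (abs_nonneg _).trans (hK x y)
  have h1 := hB x d hd
  have h2 : h (x + d) ≤ h (y + d) + K * |x - y| := by
    have h3 := (abs_le.1 (hK (x + d) (y + d))).2
    have h4 : x + d - (y + d) = x - y := by ring
    rw [h4] at h3
    linarith
  have h5 : h (x + d) / cos d ≤ h (y + d) / cos d + K * |x - y| / cos d := by
    rw [← add_div]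
    exact div_le_div_of_nonneg_right h2 hc0.le
  have h6 : K * |x - y| / cos d ≤ 2 * K * |x - y| := by
    rw [div_le_iff₀ hc0]
    nlinarith
  rw [hy]
  linarith

theorem sq_one (h : ℝ → ℝ) (hA : ∀ θ, ∃ d ∈ Icc (-1 : ℝ) 1, Leg h θ = h (θ + d) / cos d)
    (hB : ∀ θ, ∀ d ∈ Icc (-1 : ℝ) 1, Leg h θ ≤ h (θ + d) / cos d) (e : ℝ) (he0 : 0 ≤ e)
    (he : e ≤ 1 / 100) (hh : ∀ ψ, |h ψ - 1| ≤ e) (hL : ∀ θ, |Leg h θ - 1| ≤ e) (x y : ℝ) :
    Leg h x - Leg h y ≤ 4 * √e * |x - y| := by
  have hs0 : 0 ≤ √e := sqrt_nonneg e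
  have hs2 : √e * √e = e := mul_self_sqrt he0
  have hs1 : √e ≤ 1 / 10 := by
    rw [Real.sqrt_le_left (by norm_num)]
    linarith
  rcases le_or_gt (√e) |x - y| with hxy | hxy
  · have h1 := (abs_le.1 (hL x)).2
    have h2 := (abs_le.1 (hL y)).1
    have h3 := mul_le_mul_of_nonneg_left hxy hs0
    have h4 : 0 ≤ √e * |x - y| := mul_nonneg hs0 (abs_nonneg _)
    linarith
  · obtain ⟨d, hd, hy⟩ := hA y
    have hc := cos_half hd
    have hc0 : 0 < cos d := by linarith
    have hLy1 : Leg h y ≤ 1 + e := by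
      have := (abs_le.1 (hL y)).2
      linarith
    have hLy0 : 1 - e ≤ Leg h y := by
      have := (abs_le.1 (hL y)).1
      linarith
    have hφ : 1 - e ≤ h (y + d) := by
      have := (abs_le.1 (hh (y + d))).1
      linarith
    have hmul : Leg h y * cos d = h (y + d) := by
      rw [hy, div_mul_cancel₀ _ hc0.ne']
    have hcd : 1 - 2 * e ≤ cos d := by
      have h1 : (1 + e) * cos d ≥ 1 - e := by
        have := mul_le_mul_of_nonneg_right hLy1 hc0.le
        linarith
      nlinarith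
    have hup := cos_up hd
    have hd2 : d ^ 2 ≤ 192 / 43 * e := by linarith
    have hdabs : |d| ≤ 9 / 4 * √e := by
      apply abs_le_of_sq_le_sq _ (by positivity)
      nlinarith
    obtain ⟨u, hu⟩ : ∃ u : ℝ, u = |x - y| := ⟨_, rfl⟩
    have hu0 : 0 ≤ u := by rw [hu]; exact abs_nonneg _
    rw [← hu] at hxy ⊢
    obtain ⟨f, hf⟩ : ∃ f : ℝ, f = y + d - x := ⟨_, rfl⟩
    have hfabs : |f| ≤ |d| + u := by
      rw [hf, hu]
      have h1 : y + d - x = d - (x - y) := by ring
      rw [h1]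
      exact abs_sub _ _
    have hf1 : |f| ≤ 1 / 3 := by linarith
    have hfI : f ∈ Icc (-1 : ℝ) 1 := abs_le.1 (hf1.trans (by norm_num))
    have hcf : 9 / 10 ≤ cos f := by
      have h1 := Real.one_sub_sq_div_two_le_cos (x := f)
      have h2 : f ^ 2 ≤ (1 / 3) ^ 2 := by
        rw [← sq_abs]
        exact pow_le_pow_left₀ (abs_nonneg _) hf1 2
      linarith
    have hcf0 : 0 < cos f := by linarith
    have h1 := hB x f hfI
    have h2 : x + f = y + d := by rw [hf]; ring
    rw [h2, ← hmul] at h1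
    have h3 : cos d - cos f ≤ (|d| + u / 2) * u := by
      rw [Real.cos_sub_cos]
      have e1 : (d - f) / 2 = (x - y) / 2 := by rw [hf]; ring
      rw [e1]
      have a1 : |sin ((d + f) / 2)| ≤ |d| + u / 2 := by
        refine Real.abs_sin_le_abs.trans ?_
        rw [abs_div, abs_two]
        have := abs_add_le d f
        linarith
      have a2 : |sin ((x - y) / 2)| ≤ u / 2 := by
        refine Real.abs_sin_le_abs.trans (le_of_eq ?_)
        rw [abs_div, abs_two, hu]
      have a3 : |sin ((d + f) / 2) * sin ((x - y) / 2)| ≤ (|d| + u / 2) * (u / 2) := by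
        rw [abs_mul]
        exact mul_le_mul a1 a2 (abs_nonneg _) (by positivity)
      have a4 := (abs_le.1 a3).1
      linarith
    have h4 : (|d| + u / 2) * u ≤ 11 / 4 * √e * u := by
      refine mul_le_mul_of_nonneg_right ?_ hu0
      linarith
    have h5 : Leg h x * cos f ≤ Leg h y * cos d := by
      rwa [le_div_iff₀ hcf0] at h1
    have hsu : 0 ≤ √e * u := mul_nonneg hs0 hu0
    have h6 : (Leg h x - Leg h y) * cos f ≤ 101 / 100 * (11 / 4 * √e * u) := by
      have h7 : Leg h y * (cos d - cos f) ≤ Leg h y * (11 / 4 * √e * u) :=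
        mul_le_mul_of_nonneg_left (h3.trans h4) (by linarith)
      have h8 : Leg h y * (11 / 4 * √e * u) ≤ 101 / 100 * (11 / 4 * √e * u) :=
        mul_le_mul_of_nonneg_right (by linarith) (by positivity)
      linarith
    by_contra hcon
    push Not at hcon
    have h9 : (4 * √e * u) * cos f < (Leg h x - Leg h y) * cos f :=
      mul_lt_mul_of_pos_right hcon hcf0
    have h10 : (4 * √e * u) * (9 / 10) ≤ (4 * √e * u) * cos f :=
      mul_le_mul_of_nonneg_left hcf (by positivity)
    linarith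

theorem t (h1 : S_L1) : S_L2 := by
  intro h hc hh
  obtain ⟨hA, hB, -, hD, -⟩ := h1 h hc hh
  refine ⟨?_, ?_, ?_, ?_, ?_⟩
  · intro K hK x y
    rw [abs_le]
    have a1 := lip_one h hA hB K hK x y
    have a2 := lip_one h hA hB K hK y x
    rw [abs_sub_comm] at a2
    constructor <;> linarith
  · intro e he0 he hhe x y
    have hL := hD e (by linarith) hhe
    rw [abs_le]
    have a1 := sq_one h hA hB e he0 he hhe hL x y
    have a2 := sq_one h hA hB e he0 he hhe hL y x
    rw [abs_sub_comm] at a2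
    constructor <;> linarith
  · intro C hC hC2 x δ
    obtain ⟨d, hd, hy⟩ := hA x
    have hcd := cos_half hd
    have hc0 : 0 < cos d := by linarith
    have a1 := hB (x + δ) d hd
    have a2 := hB (x - δ) d hd
    have a3 := hC2 (x + d) δ
    rw [show x + d + δ = x + δ + d by ring, show x + d - δ = x - δ + d by ring] at a3
    rw [le_div_iff₀ hc0] at a1 a2
    have a4 : Leg h x * cos d = h (x + d) := by rw [hy, div_mul_cancel₀ _ hc0.ne']
    have a5 : (Leg h (x + δ) + Leg h (x - δ) - 2 * Leg h x) * cos d ≤ C * δ ^ 2 := by linarith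
    by_contra hcon
    push Not at hcon
    have a6 : (2 * C * δ ^ 2) * cos d < (Leg h (x + δ) + Leg h (x - δ) - 2 * Leg h x) * cos d :=
      mul_lt_mul_of_pos_right hcon hc0
    have a7 : (2 * C * δ ^ 2) * (1 / 2) ≤ (2 * C * δ ^ 2) * cos d :=
      mul_le_mul_of_nonneg_left hcd (by positivity)
    linarith
  · intro K hK0 hK1 hK x
    obtain ⟨d, hd, hy⟩ := hA x
    have hcd := cos_half hd
    have hc0 : 0 < cos d := by linarith
    have hup := cos_up hd
    rw [hy, le_div_iff₀ hc0]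
    have a1 : h x - K * |d| ≤ h (x + d) := by
      have := (abs_le.1 (hK (x + d) x)).1
      rw [add_sub_cancel_left] at this
      linarith
    have a2 : 9 / 10 ≤ h x := by
      have := (abs_le.1 (hh x)).1
      linarith
    have a3 : 9 / 10 * (1 - cos d) ≤ h x * (1 - cos d) :=
      mul_le_mul_of_nonneg_right a2 (by have := Real.cos_le_one d; linarith)
    have a4 : K ^ 2 ≤ 2 * K ^ 2 * cos d := by
      have := mul_le_mul_of_nonneg_left hcd (by positivity : 0 ≤ 2 * K ^ 2)
      linarith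
    have a5 : 0 ≤ (|d| / 2 - K) ^ 2 := sq_nonneg _
    have a6 : |d| ^ 2 = d ^ 2 := sq_abs d
    nlinarith
  · intro hev x
    have key : ∀ x, Leg h (-x) ≤ Leg h x := by
      intro x
      obtain ⟨d, hd, hy⟩ := hA x
      have a1 := hB (-x) (-d) ⟨by have := hd.2; linarith, by have := hd.1; linarith⟩
      rw [show -x + -d = -(x + d) by ring, hev, Real.cos_neg, ← hy] at a1
      exact a1
    refine le_antisymm (key x) ?_
    have := key (-x)
    rwa [neg_neg] at this

end N427.IB.L2
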